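import Pool.Agent.Lead.TEx5

set_option autoImplicit false

namespace Pool.Agent.Results.MP_4f6efa_gt.Q1

open Pool.Agent.TEx

theorem result : ∀ ι : Type, Cardinal.mk ι = Cardinal.aleph 1 →
    ∃ (Y : Type) (_ : TopologicalSpace Y) (K : Set Y), T35Space Y ∧
      Nonempty (K ≃ₜ (ι → Bool)) ∧
      ¬ ∃ φ : Cp K → Cp Y, Continuous φ ∧ ∀ (f : Cp K) (x : K), (φ f).1 x = f.1 x := by
  intro ι hι
  have := unc_of hι
  let e : (ι → Bool) → (ι → unitInterval) := fun s i => if s i = true then 1 else 0
  have hc : Continuous e := continuous_pi fun i => (continuous_of_discreteTopology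
    (f := fun b : Bool => if b = true then (1 : unitInterval) else 0)).comp (continuous_apply i)
  have he : Topology.IsEmbedding e := (hc.isClosedEmbedding fun s s' h => funext fun i => by
    have := congrFun h i
    cases h1 : s i <;> cases h2 : s' i <;> simp_all [e]).isEmbedding
  refine ⟨ι → unitInterval, inferInstance, Set.range e, inferInstance,
    ⟨he.toHomeomorph.symm⟩, fun ⟨φ, hφ, h⟩ => ?_⟩
  refine no_ext ι e hc (φ ∘ pull _ he.toHomeomorph.symm.continuous)
    (hφ.comp (cont_pull _ _)) fun f s => (h _ ⟨e s, s, rfl⟩).trans ?_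
  exact congrArg f.1 (he.toHomeomorph.symm_apply_apply s)

end Pool.Agent.Results.MP_4f6efa_gt.Q1
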